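import Pool.Agent.H25.WP.Defs

/-!
[H47 FC MAIN]  Colourings pass from `H / N` to `G` when `H` controls its fusion in `G` modulo `N`.
-/

set_option autoImplicit false

namespace Pool.Agent.H47.FC

open Pool.Agent.H25.WP

universe u

/-- `H` controls its fusion in `G` modulo its normal subgroup `N`: for every `y` in `G` there is `q`
in `H / N` such that `c q = q d` in `H / N` whenever `c, d` in `H` satisfy `c y = y d`. -/
def ControlsFusion {G : Type*} [Group G] (H : Subgroup G) (N : Subgroup H) [N.Normal] : Prop :=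
  ∀ y : G, ∃ q : H ⧸ N, ∀ c d : H, (c : G) * y = y * (d : G) →
    (c : H ⧸ N) * q = q * (d : H ⧸ N)


variable {G : Type u} [Group G]

/-- an equivariant map from `G` to the quotient of `H`. -/
theorem exists_equivariant {H : Subgroup G} {N : Subgroup H} [N.Normal] (hc : ControlsFusion H N) :
    ∃ π : G → H ⧸ N, ∀ (a b : H) (g : G), π (a * g * b) = (a : H ⧸ N) * π g * (b : H ⧸ N) := by
  classical
  choose q hq using hc
  -- the double coset relation
  let r : Setoid G :=
    { r := fun g g' => ∃ a b : H, g' = a * g * b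
      iseqv :=
        { refl := fun g => ⟨1, 1, by simp⟩
          symm := by
            rintro g g' ⟨a, b, rfl⟩
            exact ⟨a⁻¹, b⁻¹, by simp [mul_assoc]⟩
          trans := by
            rintro g g' g'' ⟨a, b, rfl⟩ ⟨a', b', rfl⟩
            exact ⟨a' * a, b * b', by simp [mul_assoc]⟩ } }
  let y : G → G := fun g => (Quotient.mk r g).out
  have hy : ∀ g, ∃ a b : H, g = a * y g * b := by
    intro g
    have : r.r (y g) g := Quotient.exact (Quotient.out_eq (Quotient.mk r g))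
    exact this
  have hyc : ∀ (a b : H) (g : G), y (a * g * b) = y g := by
    intro a b g
    have : Quotient.mk r (a * g * b) = Quotient.mk r g :=
      (Quotient.sound (⟨a, b, rfl⟩ : r.r g (a * g * b))).symm
    show (Quotient.mk r (a * g * b)).out = (Quotient.mk r g).out
    rw [this]
  choose l m hlm using hy
  refine ⟨fun g => (l g : H ⧸ N) * q (y g) * (m g : H ⧸ N), ?_⟩
  intro a b g
  show (l (a * g * b) : H ⧸ N) * q (y (a * g * b)) * (m (a * g * b) : H ⧸ N) =
    (a : H ⧸ N) * ((l g : H ⧸ N) * q (y g) * (m g : H ⧸ N)) * (b : H ⧸ N)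
  have h1 := hlm g
  have h2 := hlm (a * g * b)
  rw [hyc] at h2 ⊢
  set l' := l (a * g * b) with hl'
  set m' := m (a * g * b) with hm'
  have h3 : ((l'⁻¹ * a * l g : H) : G) * y g = y g * ((m' * b⁻¹ * (m g)⁻¹ : H) : G) := by
    have h4 : (a : G) * ((l g : G) * y g * (m g : G)) * (b : G) = (l' : G) * y g * (m' : G) := by
      rw [← h1]; exact h2
    have h5 : (l' : G)⁻¹ * ((a : G) * ((l g : G) * y g * (m g : G)) * (b : G)) * (b : G)⁻¹ * (m g : G)⁻¹ =
        (l' : G)⁻¹ * ((l' : G) * y g * (m' : G)) * (b : G)⁻¹ * (m g : G)⁻¹ := by rw [h4]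
    simp only [mul_assoc, inv_mul_cancel_left, mul_inv_cancel, mul_one] at h5
    simp only [Subgroup.coe_mul, Subgroup.coe_inv, mul_assoc]
    exact h5
  have h6 := hq (y g) _ _ h3
  simp only [QuotientGroup.mk_mul, QuotientGroup.mk_inv] at h6
  have h7 : (a : H ⧸ N) * (l g : H ⧸ N) * q (y g) =
      (l' : H ⧸ N) * q (y g) * ((m' : H ⧸ N) * (b : H ⧸ N)⁻¹ * (m g : H ⧸ N)⁻¹) := by
    have := congrArg (fun z => (l' : H ⧸ N) * z) h6
    simp only [mul_assoc, mul_inv_cancel_left] at this ⊢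
    exact this
  calc (l' : H ⧸ N) * q (y g) * (m' : H ⧸ N)
      = (l' : H ⧸ N) * q (y g) * ((m' : H ⧸ N) * (b : H ⧸ N)⁻¹ * (m g : H ⧸ N)⁻¹) *
          (m g : H ⧸ N) * (b : H ⧸ N) := by
        simp only [mul_assoc, inv_mul_cancel, mul_one]
    _ = (a : H ⧸ N) * (l g : H ⧸ N) * q (y g) * (m g : H ⧸ N) * (b : H ⧸ N) := by rw [← h7]
    _ = _ := by simp only [mul_assoc]


/-- colourings: if every finite `F` lies in a subgroup `H` with a normal subgroup `N` such that different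
elements of `F` are different modulo `N`, `H / N` has colourings and `H` controls its fusion in `G`
modulo `N`, then `G` has colourings. -/
theorem pc_of_control
    (h : ∀ F : Finset G, ∃ (H : Subgroup G) (N : Subgroup H) (_ : N.Normal),
      (F : Set G) ⊆ H ∧
      (∀ a b : H, (a : G) ∈ F → (b : G) ∈ F → a ≠ b → a⁻¹ * b ∉ N) ∧
      PC (H ⧸ N) ∧ ControlsFusion H N) : PC G := by
  classical
  refine pc_mk.{u, u, 0} fun F => ?_
  obtain ⟨H, N, _, hFH, hN, hP, hc⟩ := h F
  obtain ⟨π, hπ⟩ := exists_equivariant hc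
  have hP' := hP (F.attach.image fun f : {x // x ∈ F} => (QuotientGroup.mk (⟨f.1, hFH f.2⟩ : H) : H ⧸ N))
  obtain ⟨T, hFT, κ, hκ⟩ := hP'
  have hr : ∀ t : H ⧸ N, ∃ a : H, (a : H ⧸ N) = t ∧
      ((∃ f : H, (f : G) ∈ F ∧ (f : H ⧸ N) = t) → (a : G) ∈ F) := by
    intro t
    by_cases h : ∃ f : H, (f : G) ∈ F ∧ (f : H ⧸ N) = t
    · obtain ⟨f, hf, hft⟩ := h
      exact ⟨f, hft, fun _ => hf⟩
    · obtain ⟨a, ha⟩ := QuotientGroup.mk_surjective t
      exact ⟨a, ha, fun h' => absurd h' h⟩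
  choose r hr1 hr2 using hr
  refine ⟨{x // x ∈ T}, inferInstance, fun t => ((r t : H) : G), Fin T.card, fun g => κ (π g), ?_, ?_⟩
  · intro f hf
    have h1 : ((⟨f, hFH hf⟩ : H) : H ⧸ N) ∈ T :=
      hFT (Finset.mem_image.2 ⟨⟨f, hf⟩, Finset.mem_attach _ _, rfl⟩)
    refine ⟨⟨_, h1⟩, ?_⟩
    have h2 := hr2 ((⟨f, hFH hf⟩ : H) : H ⧸ N) ⟨⟨f, hFH hf⟩, hf, rfl⟩
    show ((r ((⟨f, hFH hf⟩ : H) : H ⧸ N) : H) : G) = f
    by_contra hne
    have hne' : r ((⟨f, hFH hf⟩ : H) : H ⧸ N) ≠ ⟨f, hFH hf⟩ := fun h' => hne (by rw [h'])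
    exact hN _ _ h2 hf hne' (QuotientGroup.eq.1 (hr1 _))
  · intro g
    have e1 : (fun t : {x // x ∈ T} => κ (π (g * ((r t : H) : G)⁻¹))) =
        fun t : {x // x ∈ T} => κ (π g * (t : H ⧸ N)⁻¹) := by
      funext t
      have := hπ 1 (r t)⁻¹ g
      simp only [Subgroup.coe_one, one_mul, Subgroup.coe_inv, QuotientGroup.mk_one,
        QuotientGroup.mk_inv, hr1] at this
      rw [this]
    have e2 : (fun t : {x // x ∈ T} => κ (π (((r t : H) : G)⁻¹ * g))) =
        fun t : {x // x ∈ T} => κ ((t : H ⧸ N)⁻¹ * π g) := by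
      funext t
      have := hπ (r t)⁻¹ 1 g
      simp only [Subgroup.coe_one, mul_one, Subgroup.coe_inv, QuotientGroup.mk_one,
        QuotientGroup.mk_inv, hr1] at this
      rw [this]
    constructor
    · rw [e1]; exact (hκ (π g)).1
    · rw [e2]; exact (hκ (π g)).2

end Pool.Agent.H47.FC
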